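import Pool.Agent.L0h32.CX.Stm

/-!
# ENU: the enumeration of the reachable states
-/

set_option autoImplicit false
set_option linter.all false

namespace Pool.Agent.L0h83.CX

open Relation
open Pool.Agent.L0h32.CX
open Pool.Agent.H630R2.LA (LimAut Sym fz Fr Cfg Step init initTape WS lrel bitS ix nr Ann keep
  finite_WS)

theorem ix_val {h j : ℕ} (hj : j < 2 ^ h) : (ix h j).val = j := Nat.mod_eq_of_lt hj

section defs

variable {A : Type} (h : ℕ) (rel : A → Fin (2 ^ h) → Fin (2 ^ h) → Bool) (p0 : Fin (2 ^ h))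
  (facc : Fin (2 ^ h) → Bool) (w : List A) (t : ℕ)

open Classical in
/-- the reachable states below `j` -/
noncomputable def ZZ (m : Mem A) (j : ℕ) : Finset (Fin (2 ^ h)) :=
  Finset.univ.filter fun q => q.val < j ∧ nr h rel p0 w (qpos h t m) q

open Classical in
/-- the memory after `j` states -/
noncomputable def mj (m : Mem A) (j : ℕ) : Mem A :=
  { m with z := j, d := (ZZ h rel p0 w t m j).card,
           f := decide (∃ q ∈ ZZ h rel p0 w t m j, tst h rel facc m q = true) }

theorem mem_ZZ (m : Mem A) (j : ℕ) (q : Fin (2 ^ h)) :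
    q ∈ ZZ h rel p0 w t m j ↔ q.val < j ∧ nr h rel p0 w (qpos h t m) q := by
  classical
  unfold ZZ
  rw [Finset.mem_filter]
  exact ⟨fun H => H.2, fun H => ⟨Finset.mem_univ _, H⟩⟩

theorem ZZ_zero (m : Mem A) : ZZ h rel p0 w t m 0 = ∅ := by
  apply Finset.eq_empty_of_forall_notMem
  intro q hq
  exact absurd ((mem_ZZ h rel p0 w t m 0 q).1 hq).1 (Nat.not_lt_zero _)

theorem ZZ_succ_of (m : Mem A) (j : ℕ) (hj : j < 2 ^ h)
    (hr : nr h rel p0 w (qpos h t m) (ix h j)) :
    ix h j ∉ ZZ h rel p0 w t m j ∧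
      ∀ q, q ∈ ZZ h rel p0 w t m (j + 1) ↔ q = ix h j ∨ q ∈ ZZ h rel p0 w t m j := by
  refine ⟨?_, ?_⟩
  · intro hq
    have h1 := ((mem_ZZ h rel p0 w t m j _).1 hq).1
    rw [ix_val hj] at h1
    exact lt_irrefl _ h1
  · intro q
    rw [mem_ZZ, mem_ZZ]
    constructor
    · rintro ⟨h1, h2⟩
      rcases Nat.lt_succ_iff_lt_or_eq.1 h1 with h3 | h3
      · exact Or.inr ⟨h3, h2⟩
      · left
        apply Fin.ext
        rw [ix_val hj]
        exact h3
    · rintro (h1 | ⟨h1, h2⟩)
      · rw [h1]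
        refine ⟨?_, hr⟩
        rw [ix_val hj]
        exact Nat.lt_succ_self _
      · exact ⟨by omega, h2⟩

theorem ZZ_succ_not (m : Mem A) (j : ℕ) (hj : j < 2 ^ h)
    (hr : ¬ nr h rel p0 w (qpos h t m) (ix h j)) :
    ZZ h rel p0 w t m (j + 1) = ZZ h rel p0 w t m j := by
  ext q
  rw [mem_ZZ, mem_ZZ]
  constructor
  · rintro ⟨h1, h2⟩
    rcases Nat.lt_succ_iff_lt_or_eq.1 h1 with h3 | h3
    · exact ⟨h3, h2⟩
    · exfalso
      apply hr
      have : ix h j = q := by
        apply Fin.ext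
        rw [ix_val hj]
        exact h3.symm
      rw [this]
      exact h2
  · rintro ⟨h1, h2⟩
    exact ⟨by omega, h2⟩

theorem card_ZZ_le (m : Mem A) (j : ℕ) : (ZZ h rel p0 w t m j).card ≤ 2 ^ h := by
  have h1 := Finset.card_le_univ (ZZ h rel p0 w t m j)
  rw [Fintype.card_fin] at h1
  exact h1

theorem mok_mj (m : Mem A) (hm : MOK h rel p0 facc w t m) (j : ℕ) (hj : j ≤ 2 ^ h) :
    MOK h rel p0 facc w t (mj h rel p0 facc w t m j) := by
  classical
  obtain ⟨h1, h2, h3, h4, h5, h6, h7⟩ := hm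
  refine ⟨h1, h2, h3, h4, hj, ⟨ZZ h rel p0 w t m j, ?_, rfl, ?_⟩, h7⟩
  · intro q hq
    have := (mem_ZZ h rel p0 w t m j q).1 hq
    exact ⟨this.2, this.1⟩
  · show decide (∃ q ∈ ZZ h rel p0 w t m j, tst h rel facc m q = true) = true ↔ _
    rw [decide_eq_true_iff]
    exact Iff.rfl

theorem bd_mj (m : Mem A) (hb : BdM h m) (j : ℕ) (hj : j ≤ 2 ^ h) :
    BdM h (mj h rel p0 facc w t m j) := by
  obtain ⟨h1, h2, h3, h4, h5, h6, h7, h8, h9⟩ := hb
  exact ⟨h1, h2, h3, h4, h5, h6, hj, card_ZZ_le h rel p0 w t m j, h9⟩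

theorem step_yes (m : Mem A) (j : ℕ) (hj : j < 2 ^ h)
    (hr : nr h rel p0 w (qpos h t m) (ix h j)) :
    yes h rel facc (mj h rel p0 facc w t m j) = mj h rel p0 facc w t m (j + 1) := by
  classical
  obtain ⟨hn, hs⟩ := ZZ_succ_of h rel p0 w t m j hj hr
  have h1 : ZZ h rel p0 w t m (j + 1) = insert (ix h j) (ZZ h rel p0 w t m j) := by
    ext q
    rw [hs q, Finset.mem_insert]
  have h2 : (ZZ h rel p0 w t m (j + 1)).card = (ZZ h rel p0 w t m j).card + 1 := by
    rw [h1, Finset.card_insert_of_notMem hn]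
  have h3 : decide (∃ q ∈ ZZ h rel p0 w t m (j + 1), tst h rel facc m q = true) =
      (decide (∃ q ∈ ZZ h rel p0 w t m j, tst h rel facc m q = true) ||
        tst h rel facc m (ix h j)) := by
    rw [Bool.eq_iff_iff, Bool.or_eq_true, decide_eq_true_iff, decide_eq_true_iff]
    constructor
    · rintro ⟨q, hq, hq2⟩
      rcases (hs q).1 hq with h4 | h4
      · right
        rw [← h4]
        exact hq2
      · exact Or.inl ⟨q, h4, hq2⟩
    · rintro (⟨q, hq, hq2⟩ | h4)
      · exact ⟨q, (hs q).2 (Or.inr hq), hq2⟩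
      · exact ⟨ix h j, (hs _).2 (Or.inl rfl), h4⟩
  unfold yes mj
  rw [h2]
  simp only
  rw [h3]
  rfl

theorem step_no (m : Mem A) (j : ℕ) (hj : j < 2 ^ h)
    (hr : ¬ nr h rel p0 w (qpos h t m) (ix h j)) :
    { mj h rel p0 facc w t m j with z := j + 1 } = mj h rel p0 facc w t m (j + 1) := by
  unfold mj
  rw [ZZ_succ_not h rel p0 w t m j hj hr]

theorem enum (hP : S_PTH) (τ : ℕ → Sym (WS A)) (ht : t ≤ w.length)
    (hτ : Ann h rel p0 w τ (min (t + 1) w.length)) (m : Mem A) (hm : MOK h rel p0 facc w t m)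
    (hb : BdM h m) : ∀ j : ℕ, j ≤ 2 ^ h →
    ReflTransGen (RS h rel p0 facc τ (t + 1)) (.hm (mj h rel p0 facc w t m 0), t)
      (.hm (mj h rel p0 facc w t m j), t) := by
  classical
  intro j
  induction j with
  | zero => intro _; exact ReflTransGen.refl
  | succ j ih =>
    intro hj
    have hj' : j < 2 ^ h := hj
    refine (ih hj'.le).trans ?_
    by_cases hr : nr h rel p0 w (qpos h t m) (ix h j)
    · have hd : (mj h rel p0 facc w t m j).d < 2 ^ h := by
        show (ZZ h rel p0 w t m j).card < 2 ^ h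
        have hn := (ZZ_succ_of h rel p0 w t m j hj' hr).1
        have h1 : ZZ h rel p0 w t m j ⊂ Finset.univ := by
          rw [Finset.ssubset_univ_iff]
          intro h2
          rw [h2] at hn
          exact hn (Finset.mem_univ _)
        have h2 := Finset.card_lt_card h1
        rw [Finset.card_univ, Fintype.card_fin] at h2
        exact h2
      have h1 := hP A h rel p0 facc w t τ ht hτ (mj h rel p0 facc w t m j)
        (mok_mj h rel p0 facc w t m hm j hj'.le) (bd_mj h rel p0 facc w t m hb j hj'.le) hd hj' hr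
      rw [step_yes h rel p0 facc w t m j hj' hr] at h1
      exact h1
    · have hbd := bd_mj h rel p0 facc w t m hb (j + 1) hj
      have h1 : RS h rel p0 facc τ (t + 1) (.hm (mj h rel p0 facc w t m j), t)
          (.h1 (mj h rel p0 facc w t m (j + 1)), t + 1) := by
        refine ⟨Nat.le_succ _, hbd, true, ?_, fun _ => rfl, fun hc => absurd hc (by decide)⟩
        have h3 := Tr.hop (h := h) (rel := rel) (p0 := p0) (facc := facc)
          (mj h rel p0 facc w t m j) _ (τ t) (Hop.no (mj h rel p0 facc w t m j) hj')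
        have h4 := step_no h rel p0 facc w t m j hj' hr
        rw [← h4]
        exact h3
      have h2 : RS h rel p0 facc τ (t + 1) (.h1 (mj h rel p0 facc w t m (j + 1)), t + 1)
          (.hm (mj h rel p0 facc w t m (j + 1)), t) := by
        refine ⟨le_rfl, hbd, false, Tr.back _ _, fun hc => absurd hc (by decide), fun _ => rfl⟩
      exact (ReflTransGen.single h1).tail h2

end defs

theorem t_ENU (hP : S_PTH) : S_ENU := by
  classical
  intro A h rel p0 facc w t τ ht hτ m hm hb hz hd hf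
  have h0 : mj h rel p0 facc w t m 0 = m := by
    unfold mj
    rw [ZZ_zero]
    have h1 : decide (∃ q ∈ (∅ : Finset (Fin (2 ^ h))), tst h rel facc m q = true) = false := by
      rw [decide_eq_false_iff_not]
      rintro ⟨q, hq, -⟩
      exact absurd hq (Finset.notMem_empty q)
    rw [h1, Finset.card_empty]
    cases m
    simp only at hz hd hf
    subst hz hd hf
    rfl
  have h1 := enum h rel p0 facc w t hP τ ht hτ m hm hb (2 ^ h) le_rfl
  rw [h0] at h1
  have hZ : ZZ h rel p0 w t m (2 ^ h) =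
      Finset.univ.filter fun q : Fin (2 ^ h) => nr h rel p0 w (qpos h t m) q := by
    ext q
    rw [mem_ZZ, Finset.mem_filter]
    exact ⟨fun H => ⟨Finset.mem_univ _, H.2⟩, fun H => ⟨q.isLt, H.2⟩⟩
  refine ⟨decide (∃ q ∈ ZZ h rel p0 w t m (2 ^ h), tst h rel facc m q = true), ?_, ?_⟩
  · rw [decide_eq_true_iff]
    constructor
    · rintro ⟨q, hq, hq2⟩
      exact ⟨q, ((mem_ZZ h rel p0 w t m _ q).1 hq).2, hq2⟩
    · rintro ⟨q, hq, hq2⟩
      exact ⟨q, (mem_ZZ h rel p0 w t m _ q).2 ⟨q.isLt, hq⟩, hq2⟩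
  · have hc : cN h rel p0 w (qpos h t m) = (ZZ h rel p0 w t m (2 ^ h)).card := by
      unfold cN
      rw [hZ]
    rw [hc]
    exact h1

end Pool.Agent.L0h83.CX
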